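import Pool.Agent.Work.MP_156639_an.Defs

/-!
# MP_156639_an : elementary lemmas
-/

set_option autoImplicit false

open scoped BigOperators
open Filter Topology

namespace Pool.Agent.MP156639

/-! ## Scales -/

lemma Kn_pos (n : ℕ) : 0 < Kn n := Finset.prod_pos fun i _ => Nat.factorial_pos _

lemma th_pos (n : ℕ) : 0 < th n := Finset.prod_pos fun i _ => Nat.factorial_pos _

lemma one_le_th (n : ℕ) : (1 : ℝ) ≤ (th n : ℝ) := by exact_mod_cast th_pos n

lemma th_succ (n : ℕ) : th (n + 1) = Kn n := rfl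

lemma Kn_eq (n : ℕ) : Kn n = th n * Rn n := by
  unfold Kn th Rn; rw [Finset.prod_range_succ]

lemma Kn_eq_real (n : ℕ) : (Kn n : ℝ) = (th n : ℝ) * (Rn n : ℝ) := by
  exact_mod_cast Kn_eq n

lemma Rn_pos (n : ℕ) : 0 < Rn n := Nat.factorial_pos _

lemma Rp_pos (n : ℕ) : 0 < Rp n := Nat.factorial_pos _

lemma one_le_Rp (n : ℕ) : (1 : ℝ) ≤ (Rp n : ℝ) := by exact_mod_cast Rp_pos n

lemma one_le_Rn (n : ℕ) : (1 : ℝ) ≤ (Rn n : ℝ) := by exact_mod_cast Rn_pos n

lemma Rn_eq (n : ℕ) : Rn n = (n + 1) * Rp n := Nat.factorial_succ n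

lemma Rn_eq_real (n : ℕ) : (Rn n : ℝ) = ((n : ℝ) + 1) * (Rp n : ℝ) := by
  exact_mod_cast Rn_eq n

lemma Rn_le_Rp {n n' : ℕ} (h : n' < n) : Rn n' ≤ Rp n := Nat.factorial_le h

lemma Rn_mono : Monotone Rn := fun _ _ h => Nat.factorial_le (Nat.succ_le_succ h)

lemma th_mono : Monotone th := by
  apply monotone_nat_of_le_succ
  intro n
  rw [th_succ, Kn_eq]
  exact Nat.le_mul_of_pos_right _ (Rn_pos n)

lemma Kn_le_th {n n' : ℕ} (h : n < n') : Kn n ≤ th n' := th_mono h

lemma Kn_le_th_real {n n' : ℕ} (h : n < n') : (Kn n : ℝ) ≤ (th n' : ℝ) := by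
  exact_mod_cast Kn_le_th h

/-- scales below `n` -/
lemma Kn_le_Rp {n n' : ℕ} (h : n' < n) : (Kn n' : ℝ) ≤ (Rp n : ℝ) * (th n' : ℝ) := by
  rw [Kn_eq_real, mul_comm]
  apply mul_le_mul_of_nonneg_right _ (by positivity)
  exact_mod_cast Rn_le_Rp h

lemma th_ge (n : ℕ) : n ≤ th (n + 1) := by
  rw [th_succ, Kn_eq]
  calc n ≤ (n + 1).factorial := (Nat.le_succ n).trans (Nat.self_le_factorial _)
    _ ≤ th n * Rn n := Nat.le_mul_of_pos_left _ (th_pos n)

lemma th_tendsto : Tendsto (fun n => (th n : ℝ)) atTop atTop := by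
  rw [← tendsto_add_atTop_iff_nat 1]
  apply tendsto_atTop_mono (fun n => _) tendsto_natCast_atTop_atTop
  intro n
  exact_mod_cast th_ge n

lemma label_inf (o : Option ℕ) (n₀ : ℕ) : ∃ n ≥ n₀, label n = o := by
  cases o with
  | none =>
    refine ⟨Nat.pair 0 n₀, Nat.right_le_pair _ _, ?_⟩
    simp [label]
  | some c =>
    refine ⟨Nat.pair (c + 1) n₀, Nat.right_le_pair _ _, ?_⟩
    simp [label]

/-! ## Tents -/

lemma near_spec (N l : ℕ) : 2 * (N + 1) * near N l ≤ l + (N + 1) ∧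
    l + (N + 1) < 2 * (N + 1) * (near N l + 1) := by
  unfold near
  have h1 := Nat.div_add_mod (l + (N + 1)) (2 * (N + 1))
  have h2 : (l + (N + 1)) % (2 * (N + 1)) < 2 * (N + 1) := Nat.mod_lt _ (by omega)
  set q := (l + (N + 1)) / (2 * (N + 1))
  constructor
  · omega
  · rw [mul_add, mul_one]; omega

lemma near_eq_of {N l j : ℕ} (h1 : 2 * (N + 1) * j ≤ l + (N + 1))
    (h2 : l + (N + 1) < 2 * (N + 1) * (j + 1)) : near N l = j := by
  unfold near
  apply Nat.div_eq_of_lt_le
  · rw [mul_comm]; exact h1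
  · rw [mul_comm]; exact h2

lemma near_station (N j : ℕ) : near N (2 * (N + 1) * j) = j := by
  apply near_eq_of
  · omega
  · rw [mul_add (2 * (N + 1)) j 1, mul_one]; omega

lemma near_zero (N : ℕ) : near N 0 = 0 := by
  have := near_station N 0
  simpa using this

lemma near_lt {N l j : ℕ} (h : near N l = j) : l < 2 * (N + 1) * (j + 1) := by
  have := (near_spec N l).2
  rw [h] at this
  omega

lemma near_succ (N l : ℕ) : near N (l + 1) = near N l ∨
    (near N (l + 1) = near N l + 1 ∧ l + 1 + (N + 1) = 2 * (N + 1) * (near N l + 1)) := by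
  have h := near_spec N l
  by_cases h2 : l + 1 + (N + 1) < 2 * (N + 1) * (near N l + 1)
  · left
    exact near_eq_of (by omega) h2
  · right
    have h3 : l + 1 + (N + 1) = 2 * (N + 1) * (near N l + 1) := by omega
    refine ⟨near_eq_of (by omega) ?_, h3⟩
    rw [mul_add (2 * (N + 1)) (near N l + 1) 1, mul_one]
    omega

lemma near_spec_real (N l : ℕ) : |(l : ℝ) - 2 * ((N : ℝ) + 1) * (near N l : ℝ)| ≤ (N : ℝ) + 1 := by
  obtain ⟨h1, h2⟩ := near_spec N l
  have h1' : 2 * ((N : ℝ) + 1) * (near N l : ℝ) ≤ (l : ℝ) + ((N : ℝ) + 1) := by exact_mod_cast h1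
  have h2' : (l : ℝ) + ((N : ℝ) + 1) < 2 * ((N : ℝ) + 1) * ((near N l : ℝ) + 1) := by
    exact_mod_cast h2
  rw [abs_le]
  constructor <;> nlinarith

lemma tent_nonneg (N l : ℕ) : 0 ≤ tent N l := by
  unfold tent
  have h := near_spec_real N l
  have hW : (0 : ℝ) < (N : ℝ) + 1 := by positivity
  rw [sub_nonneg, div_le_one hW]
  exact h

lemma tent_le_one (N l : ℕ) : tent N l ≤ 1 := by
  unfold tent
  have hW : (0 : ℝ) < (N : ℝ) + 1 := by positivity
  have : 0 ≤ |(l : ℝ) - 2 * ((N : ℝ) + 1) * (near N l : ℝ)| / ((N : ℝ) + 1) := by positivity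
  linarith

lemma tent_station (N j : ℕ) : tent N (2 * (N + 1) * j) = 1 := by
  unfold tent
  rw [near_station]
  push_cast
  simp

lemma tent_zero (N : ℕ) : tent N 0 = 1 := by
  have := tent_station N 0
  simpa using this

/-- the tents are Lipschitz, with arbitrary coefficients on the stations -/
lemma tent_link (N l : ℕ) (c : ℕ → ℝ) (C : ℝ) (hc : ∀ j, |c j| ≤ C) :
    ((N : ℝ) + 1) * |c (near N l) * tent N l - c (near N (l + 1)) * tent N (l + 1)| ≤ C := by
  have hW : (0 : ℝ) < (N : ℝ) + 1 := by positivity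
  rcases near_succ N l with h | ⟨h, h3⟩
  · rw [h]
    have e1 : c (near N l) * tent N l - c (near N l) * tent N (l + 1) =
        c (near N l) * (tent N l - tent N (l + 1)) := by ring
    rw [e1, abs_mul]
    have e2 : |tent N l - tent N (l + 1)| ≤ 1 / ((N : ℝ) + 1) := by
      unfold tent
      rw [h]
      push_cast
      set u : ℝ := (l : ℝ) - 2 * ((N : ℝ) + 1) * (near N l : ℝ) with hu
      have e3 : (l : ℝ) + 1 - 2 * ((N : ℝ) + 1) * (near N l : ℝ) = u + 1 := by rw [hu]; ring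
      rw [e3]
      have e4 : (1 - |u| / ((N : ℝ) + 1)) - (1 - |u + 1| / ((N : ℝ) + 1)) =
          (|u + 1| - |u|) / ((N : ℝ) + 1) := by ring
      rw [e4, abs_div, abs_of_pos hW]
      apply div_le_div_of_nonneg_right _ hW.le
      have := abs_abs_sub_abs_le_abs_sub (u + 1) u
      simpa using this
    calc ((N : ℝ) + 1) * (|c (near N l)| * |tent N l - tent N (l + 1)|)
        ≤ ((N : ℝ) + 1) * (C * (1 / ((N : ℝ) + 1))) := by
          apply mul_le_mul_of_nonneg_left _ hW.le
          exact mul_le_mul (hc _) e2 (abs_nonneg _) ((abs_nonneg _).trans (hc 0))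
      _ = C := by field_simp
  · have h3' : (l : ℝ) + 1 + ((N : ℝ) + 1) = 2 * ((N : ℝ) + 1) * ((near N l : ℝ) + 1) := by
      exact_mod_cast h3
    have e1 : tent N (l + 1) = 0 := by
      unfold tent
      rw [h]
      push_cast
      have : (l : ℝ) + 1 - 2 * ((N : ℝ) + 1) * ((near N l : ℝ) + 1) = -((N : ℝ) + 1) := by
        linarith
      rw [this, abs_neg, abs_of_pos hW, div_self hW.ne']
      ring
    have e2 : tent N l = 1 / ((N : ℝ) + 1) := by
      unfold tent
      have : (l : ℝ) - 2 * ((N : ℝ) + 1) * (near N l : ℝ) = (N : ℝ) := by nlinarith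
      rw [this, abs_of_nonneg (by positivity)]
      field_simp
      ring
    rw [e1, e2, mul_zero, sub_zero, abs_mul, abs_of_pos (by positivity : (0 : ℝ) < 1 / ((N : ℝ) + 1))]
    calc ((N : ℝ) + 1) * (|c (near N l)| * (1 / ((N : ℝ) + 1))) = |c (near N l)| := by field_simp
      _ ≤ C := hc _

lemma ns_st {Ω : Type} (N : ℕ) (s : Ω × ℕ) : ns (st N s) = s := by
  unfold ns st
  simp only
  rw [near_station]

/-- the windows are finite -/
lemma window_finite {Ω : Type} (N : ℕ) (s : Ω × ℕ) : {v : Vx Ω | v.1 = N ∧ ns v = s}.Finite := by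
  apply Set.Finite.subset (Set.Finite.image (fun l => ((N, s.1, l) : Vx Ω))
    (Set.finite_Iio (2 * (N + 1) * (s.2 + 1))))
  rintro ⟨N', β, l⟩ ⟨h1, h2⟩
  simp only at h1
  subst h1
  refine ⟨l, ?_, ?_⟩
  · apply near_lt
    rw [← h2]; rfl
  · rw [← h2]; rfl

/-! ## Variation -/

lemma TVle.nonneg {V : ℝ} {x : ℕ → ℝ} (h : TVle V x) : 0 ≤ V := by
  have := h id monotone_id 0
  simpa using this

lemma TVle.mono {V V' : ℝ} {x : ℕ → ℝ} (h : TVle V x) (hV : V ≤ V') : TVle V' x :=
  fun ms hms K => (h ms hms K).trans hV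

lemma TVle.add {V V' : ℝ} {x y : ℕ → ℝ} (h : TVle V x) (h' : TVle V' y) :
    TVle (V + V') (fun m => x m + y m) := by
  intro ms hms K
  refine le_trans ?_ (add_le_add (h ms hms K) (h' ms hms K))
  rw [← Finset.sum_add_distrib]
  apply Finset.sum_le_sum
  intro i _
  have : x (ms (i + 1)) + y (ms (i + 1)) - (x (ms i) + y (ms i)) =
    (x (ms (i + 1)) - x (ms i)) + (y (ms (i + 1)) - y (ms i)) := by ring
  rw [this]
  exact abs_add_le _ _

lemma TVle.smul {V : ℝ} {x : ℕ → ℝ} (c : ℝ) (h : TVle V x) :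
    TVle (|c| * V) (fun m => c * x m) := by
  intro ms hms K
  have : ∀ i, |c * x (ms (i + 1)) - c * x (ms i)| = |c| * |x (ms (i + 1)) - x (ms i)| := by
    intro i; rw [← mul_sub, abs_mul]
  simp only [this]
  rw [← Finset.mul_sum]
  exact mul_le_mul_of_nonneg_left (h ms hms K) (abs_nonneg c)

/-- composition with a function that does not increase distances -/
lemma TVle.comp {V : ℝ} {x y : ℕ → ℝ} (h : TVle V x) (hy : ∀ i j, |y i - y j| ≤ |x i - x j|) :
    TVle V y :=
  fun ms hms K => (Finset.sum_le_sum fun i _ => hy _ _).trans (h ms hms K)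

lemma TVle.of_monotone {x : ℕ → ℝ} {A B : ℝ} (h : Monotone x) (hA : ∀ m, A ≤ x m)
    (hB : ∀ m, x m ≤ B) : TVle (B - A) x := by
  intro ms hms K
  have : ∀ i, |x (ms (i + 1)) - x (ms i)| = x (ms (i + 1)) - x (ms i) := fun i =>
    abs_of_nonneg (sub_nonneg.mpr (h (hms (Nat.le_succ i))))
  simp only [this]
  rw [Finset.sum_range_sub (fun i => x (ms i))]
  linarith [hA (ms 0), hB (ms K)]

lemma TVle.of_antitone {x : ℕ → ℝ} {A B : ℝ} (h : Antitone x) (hA : ∀ m, A ≤ x m)
    (hB : ∀ m, x m ≤ B) : TVle (B - A) x := by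
  intro ms hms K
  have : ∀ i, |x (ms (i + 1)) - x (ms i)| = x (ms i) - x (ms (i + 1)) := fun i => by
    rw [abs_sub_comm]
    exact abs_of_nonneg (sub_nonneg.mpr (h (hms (Nat.le_succ i))))
  simp only [this]
  rw [Finset.sum_range_sub' (fun i => x (ms i))]
  linarith [hA (ms K), hB (ms 0)]

lemma TVle.const (c : ℝ) : TVle 0 (fun _ => c) := by
  intro ms hms K; simp

lemma TVle_ind (k : ℕ) : TVle 1 (ind k) := by
  have : TVle (1 - 0) (ind k) := by
    apply TVle.of_antitone
    · intro a b hab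
      unfold ind
      split_ifs with h1 h2
      · exact le_refl _
      · exact absurd (lt_of_le_of_lt hab h1) h2
      · exact zero_le_one
      · exact le_refl _
    · intro m; unfold ind; split_ifs <;> norm_num
    · intro m; unfold ind; split_ifs <;> norm_num
  simpa using this

lemma ind_abs_le (k m : ℕ) : |ind k m| ≤ 1 := by
  unfold ind; split_ifs <;> norm_num

/-- a function with a single nonzero value -/
lemma TVle_single (j : ℕ) (c : ℝ) (x : ℕ → ℝ) (hx : ∀ m, m ≠ j → x m = 0) (hj : |x j| ≤ c) :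
    TVle (2 * c) x := by
  have h1 := (TVle_ind (j + 1)).smul (x j)
  have h2 := (TVle_ind j).smul (-(x j))
  have h3 := h1.add h2
  have e : (fun m => x j * ind (j + 1) m + -(x j) * ind j m) = x := by
    funext m
    unfold ind
    by_cases hm : m = j
    · subst hm; simp
    · rw [hx m hm]
      rcases lt_or_gt_of_ne hm with h | h
      · rw [if_pos (by omega), if_pos h]; ring
      · rw [if_neg (by omega), if_neg (by omega)]; ring
  rw [e] at h3
  refine h3.mono ?_
  rw [abs_neg]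
  linarith

/-- interleaving two sequences into one monotone sequence -/
lemma TVle.pairs {V : ℝ} {x : ℕ → ℝ} (h : TVle V x) {a b : ℕ → ℕ}
    (hab : ∀ i, a i ≤ b i ∧ b i ≤ a (i + 1)) (K : ℕ) :
    ∑ i ∈ Finset.range K, |x (a i) - x (b i)| ≤ V := by
  set ms : ℕ → ℕ := fun t => if t % 2 = 0 then a (t / 2) else b (t / 2) with hms
  have h0 : ∀ i, ms (2 * i) = a i := by
    intro i
    simp only [hms]
    rw [if_pos (by omega)]
    congr 1; omega
  have h1 : ∀ i, ms (2 * i + 1) = b i := by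
    intro i
    simp only [hms]
    rw [if_neg (by omega)]
    congr 1; omega
  have hmono : Monotone ms := by
    apply monotone_nat_of_le_succ
    intro t
    rcases Nat.even_or_odd' t with ⟨i, hi | hi⟩
    · subst hi; rw [h0, h1]; exact (hab i).1
    · subst hi
      rw [h1, show 2 * i + 1 + 1 = 2 * (i + 1) by ring, h0]; exact (hab i).2
  refine le_trans ?_ (h ms hmono (2 * K))
  have key : ∀ K, ∑ i ∈ Finset.range K, |x (a i) - x (b i)| ≤
      ∑ i ∈ Finset.range (2 * K), |x (ms (i + 1)) - x (ms i)| := by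
    intro K
    induction K with
    | zero => simp
    | succ K ih =>
      rw [Finset.sum_range_succ, show 2 * (K + 1) = 2 * K + 1 + 1 by ring, Finset.sum_range_succ,
        Finset.sum_range_succ]
      have e : |x (ms (2 * K + 1)) - x (ms (2 * K))| = |x (a K) - x (b K)| := by
        rw [h0, h1, abs_sub_comm]
      have e2 : 0 ≤ |x (ms (2 * K + 1 + 1)) - x (ms (2 * K + 1))| := abs_nonneg _
      linarith
  exact key K

/-! ## Bounds -/

section
variable {Ω : Type} [LinearOrder Ω] {D : LD Ω}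

lemma LD.Bd.mono {C C' : ℝ} {f : Pt Ω → ℝ} (h : D.Bd C f) (hC : C ≤ C') : D.Bd C' f where
  pt p := (h.pt p).trans hC
  link N β l m := (h.link N β l m).trans hC
  fib n c hn v hv hd ms hms := (h.fib n c hn v hv hd ms hms).trans
    (mul_le_mul_of_nonneg_right hC (by positivity))
  path n hn N β hβ a b m hab := (h.path n hn N β hβ a b m hab).trans
    (mul_le_mul_of_nonneg_right hC (by positivity))

lemma LD.Bd.add {C C' : ℝ} {f g : Pt Ω → ℝ} (h : D.Bd C f) (h' : D.Bd C' g) :
    D.Bd (C + C') (f + g) where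
  pt p := (abs_add_le _ _).trans (add_le_add (h.pt p) (h'.pt p))
  link N β l m := by
    refine le_trans ?_ (add_le_add (h.link N β l m) (h'.link N β l m))
    rw [← mul_add]
    apply mul_le_mul_of_nonneg_left _ (by positivity)
    simp only [Pi.add_apply]
    rw [add_sub_add_comm]
    exact abs_add_le _ _
  fib n c hn v hv hd ms hms := by
    rw [add_mul]
    refine le_trans ?_ (add_le_add (h.fib n c hn v hv hd ms hms) (h'.fib n c hn v hv hd ms hms))
    rw [← Finset.sum_add_distrib]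
    apply Finset.sum_le_sum
    intro i _
    simp only [Pi.add_apply]
    rw [add_sub_add_comm]
    exact abs_add_le _ _
  path n hn N β hβ a b m hab := by
    rw [add_mul]
    refine le_trans ?_ (add_le_add (h.path n hn N β hβ a b m hab)
      (h'.path n hn N β hβ a b m hab))
    rw [← Finset.sum_add_distrib]
    apply Finset.sum_le_sum
    intro i _
    simp only [Pi.add_apply]
    rw [add_sub_add_comm]
    exact abs_add_le _ _

lemma LD.Bd.smul {C : ℝ} {f : Pt Ω → ℝ} (c : ℝ) (h : D.Bd C f) : D.Bd (|c| * C) (c • f) where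
  pt p := by
    simp only [Pi.smul_apply, smul_eq_mul]
    rw [abs_mul]
    exact mul_le_mul_of_nonneg_left (h.pt p) (abs_nonneg c)
  link N β l m := by
    simp only [Pi.smul_apply, smul_eq_mul]
    rw [← mul_sub, abs_mul]
    calc ((N : ℝ) + 1) * (|c| * |f ((N, β, l), m) - f ((N, β, l + 1), m)|)
        = |c| * (((N : ℝ) + 1) * |f ((N, β, l), m) - f ((N, β, l + 1), m)|) := by ring
      _ ≤ _ := mul_le_mul_of_nonneg_left (h.link N β l m) (abs_nonneg c)
  fib n c' hn v hv hd ms hms := by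
    simp only [Pi.smul_apply, smul_eq_mul, ← mul_sub, abs_mul]
    rw [← Finset.mul_sum, mul_assoc]
    exact mul_le_mul_of_nonneg_left (h.fib n c' hn v hv hd ms hms) (abs_nonneg c)
  path n hn N β hβ a b m hab := by
    simp only [Pi.smul_apply, smul_eq_mul, ← mul_sub, abs_mul]
    rw [← Finset.mul_sum, mul_assoc]
    exact mul_le_mul_of_nonneg_left (h.path n hn N β hβ a b m hab) (abs_nonneg c)

lemma LD.Bd.neg {C : ℝ} {f : Pt Ω → ℝ} (h : D.Bd C f) : D.Bd C (-f) := by
  have := h.smul (-1)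
  simpa using this

lemma LD.Bd.sub {C C' : ℝ} {f g : Pt Ω → ℝ} (h : D.Bd C f) (h' : D.Bd C' g) :
    D.Bd (C + C') (f - g) := by
  rw [sub_eq_add_neg]; exact h.add h'.neg

lemma LD.Bd.zero : D.Bd 0 (0 : Pt Ω → ℝ) where
  pt p := by simp
  link N β l m := by simp
  fib n c' hn v hv hd ms hms := by simp
  path n hn N β hβ a b m hab := by simp

/-- the bound passes to pointwise limits -/
lemma LD.Bd.lim {C : ℝ} {f : ℕ → Pt Ω → ℝ} {z : Pt Ω → ℝ} (h : ∀ k, D.Bd C (f k))
    (hz : ∀ p, Tendsto (fun k => f k p) atTop (𝓝 (z p))) : D.Bd C z where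
  pt p := le_of_tendsto (hz p).abs (Eventually.of_forall fun k => (h k).pt p)
  link N β l m := by
    refine le_of_tendsto (((hz _).sub (hz _)).abs.const_mul _)
      (Eventually.of_forall fun k => (h k).link N β l m)
  fib n c hn v hv hd ms hms := by
    refine le_of_tendsto (tendsto_finsetSum _ fun i _ => ((hz _).sub (hz _)).abs)
      (Eventually.of_forall fun k => (h k).fib n c hn v hv hd ms hms)
  path n hn N β hβ a b m hab := by
    refine le_of_tendsto (tendsto_finsetSum _ fun i _ => ((hz _).sub (hz _)).abs)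
      (Eventually.of_forall fun k => (h k).path n hn N β hβ a b m hab)

lemma LD.Bd.nonneg {C : ℝ} {f : Pt Ω → ℝ} (h : D.Bd C f) (p : Pt Ω) : 0 ≤ C :=
  (abs_nonneg _).trans (h.pt p)

/-! ## The functions `G` -/

lemma LD.InLad_self (β : Ω) : D.InLad β (β, 0) := Or.inl rfl

lemma LD.InLad_lad (β : Ω) (a : ℕ) : D.InLad β (D.lad β a) := Or.inr ⟨a, rfl⟩

lemma LD.G_self (N : ℕ) (β : Ω) : D.G N β (N, β, 0) = 1 := by
  unfold LD.G
  rw [if_pos, tent_zero]
  refine ⟨rfl, ?_⟩
  have : ns ((N, β, 0) : Vx Ω) = (β, 0) := by unfold ns; simp [near_zero]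
  rw [this]
  exact LD.InLad_self β

lemma LD.G_lad (N : ℕ) (β : Ω) (a : ℕ) : D.G N β (st N (D.lad β a)) = 1 := by
  unfold LD.G
  rw [if_pos]
  · exact tent_station N _
  · exact ⟨rfl, by rw [ns_st]; exact LD.InLad_lad β a⟩

lemma ns_zero (N : ℕ) (β : Ω) : ns ((N, β, 0) : Vx Ω) = (β, 0) := by
  unfold ns; simp [near_zero]

lemma LD.G_other (N N' : ℕ) (β β' : Ω) (hβ : NonMin β) (h : (N, β) ≠ (N', β')) :
    D.G N β (N', β', 0) = 0 := by
  unfold LD.G
  rw [if_neg]
  rintro ⟨h1, h2⟩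
  rw [ns_zero] at h2
  rcases h2 with h2 | ⟨a, h2⟩
  · apply h
    simp only at h1
    simp only [Prod.mk.injEq] at h2
    rw [h1, h2.1]
  · have := D.lad_pos β hβ a
    rw [← h2] at this
    simp at this

lemma LD.G_nonneg (N : ℕ) (β : Ω) (v : Vx Ω) : 0 ≤ D.G N β v := by
  unfold LD.G; split_ifs
  · exact tent_nonneg _ _
  · exact le_refl _

lemma LD.G_le_one (N : ℕ) (β : Ω) (v : Vx Ω) : D.G N β v ≤ 1 := by
  unfold LD.G; split_ifs
  · exact tent_le_one _ _
  · exact zero_le_one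

/-! ## The space -/

variable {Y : Type} [NormedAddCommGroup Y] [NormedSpace ℝ Y] {val : Y →ₗ[ℝ] (Pt Ω → ℝ)}

lemma LD.IsSp.inj (h : D.IsSp val) {y y' : Y} (hy : val y = val y') : y = y' := by
  have h1 : val (y - y') = 0 := by rw [map_sub, hy, sub_self]
  have h2 := h.le (y - y') 0 le_rfl (by rw [h1]; exact LD.Bd.zero)
  have h3 : ‖y - y'‖ = 0 := le_antisymm h2 (norm_nonneg _)
  exact sub_eq_zero.mp (norm_eq_zero.mp h3)

lemma LD.IsSp.abs_le (h : D.IsSp val) (y : Y) (p : Pt Ω) : |val y p| ≤ ‖y‖ := (h.bd y).pt p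

lemma LD.IsSp.abs_sub_le (h : D.IsSp val) (y y' : Y) (p : Pt Ω) :
    |val y p - val y' p| ≤ ‖y - y'‖ := by
  have := h.abs_le (y - y') p
  rwa [map_sub] at this

lemma val_altsum (y : ℕ → Y) (k : ℕ → ℕ) (K : ℕ) (p : Pt Ω) :
    val (altsum y k K) p = ∑ i ∈ Finset.range K, (-1 : ℝ) ^ i * val (y (k i)) p := by
  unfold altsum
  rw [map_sum, Finset.sum_apply]
  apply Finset.sum_congr rfl
  intro i _
  rw [map_smul]; rfl

lemma map_altsum {Y' : Type} [NormedAddCommGroup Y'] [NormedSpace ℝ Y'] (T : Y →L[ℝ] Y')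
    (y : ℕ → Y) (k : ℕ → ℕ) (K : ℕ) :
    T (altsum y k K) = altsum (fun i => T (y i)) k K := by
  unfold altsum
  rw [map_sum]
  apply Finset.sum_congr rfl
  intro i _
  rw [map_smul]

end

end Pool.Agent.MP156639
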