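import Pool.Agent.Work.MP_156639_an.Defs

/-!
# MP_156639_an : exact statements of the blocks (proofs in BLUEPRINT.md)

A block may use any other `Stmt_Y` as a hypothesis.
-/

set_option autoImplicit false

open scoped BigOperators
open Filter Topology

namespace Pool.Agent.MP156639

/-! ## Block LD : the combinatorial data exist -/

def Stmt_LD : Prop :=
  ∃ (Ω : Type) (_ : LinearOrder Ω) (_ : WellFoundedLT Ω),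
    (∀ β : Ω, (Set.Iio β).Countable) ∧ ¬ (Set.univ : Set Ω).Countable ∧ Nonempty (LD Ω)

/-! ## Block N : constants of the elements of `SS` -/

def Stmt_Nice : Prop := ∀ (Ω : Type) [LinearOrder Ω] (D : LD Ω), ∀ ψ ∈ D.SS, ∃ C, 0 ≤ C ∧ D.Nice C ψ

/-- products with finitely supported functions are in `GS` -/
def Stmt_TG : Prop := ∀ (Ω : Type) [LinearOrder Ω] (D : LD Ω), ∀ ψ ∈ D.SS,
  ∀ x : ℕ → ℝ, (∃ M, ∀ m ≥ M, x m = 0) → tens ψ x ∈ D.GS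

/-- bounds for tensors -/
def Stmt_BT : Prop := ∀ (Ω : Type) [LinearOrder Ω] (D : LD Ω) (C V B : ℝ) (ψ : Vx Ω → ℝ) (x : ℕ → ℝ),
  D.Nice C ψ → (∀ m, |x m| ≤ 1) → TVle V x → C ≤ B →
  (∀ n c : ℕ, label n = some c → (∀ v ∈ D.A c, ψ v = 0) ∨ C * V ≤ B * (th n : ℝ) ∨
    2 * C * (Kn n : ℝ) ≤ B * (th n : ℝ)) → D.Bd B (tens ψ x)

/-! ## Block SP : the space exists -/

def Stmt_Sp : Prop := ∀ (Ω : Type) [LinearOrder Ω] (D : LD Ω),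
  ∃ (Y : Type) (_ : NormedAddCommGroup Y) (_ : NormedSpace ℝ Y) (_ : CompleteSpace Y)
    (val : Y →ₗ[ℝ] (Pt Ω → ℝ)), D.IsSp val

/-! ## Block O : properties of the elements of `Y` -/

/-- uniform decay in `m` -/
def Stmt_O1 : Prop := ∀ (Ω : Type) [LinearOrder Ω] (D : LD Ω) (Y : Type) [NormedAddCommGroup Y]
  [NormedSpace ℝ Y] (val : Y →ₗ[ℝ] (Pt Ω → ℝ)), D.IsSp val →
  ∀ y, ∀ ε > 0, ∃ M, ∀ m ≥ M, ∀ v, |val y (v, m)| ≤ ε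

/-- uniform continuity along the ladders -/
def Stmt_O2 : Prop := ∀ (Ω : Type) [LinearOrder Ω] (D : LD Ω) (Y : Type) [NormedAddCommGroup Y]
  [NormedSpace ℝ Y] (val : Y →ₗ[ℝ] (Pt Ω → ℝ)), D.IsSp val → ∀ y, D.UL (val y)

/-- the seminorm of scale `n` (together with the link seminorm of the component `n`) is at
most `C` -/
structure LD.Sc {Ω : Type} [LinearOrder Ω] (D : LD Ω) (n : ℕ) (C : ℝ) (f : Pt Ω → ℝ) : Prop where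
  link : ∀ (β : Ω) (l m : ℕ),
    ((n : ℝ) + 1) * |f ((n, β, l), m) - f ((n, β, l + 1), m)| ≤ C
  fib : ∀ c : ℕ, label n = some c → ∀ v ∈ D.A c, D.depv v ≤ n → ∀ ms : ℕ → ℕ, Monotone ms →
    ∑ i ∈ Finset.range (Kn n), |f (v, ms (i + 1)) - f (v, ms i)| ≤ C * (th n : ℝ)
  path : label n = none → ∀ (N : ℕ) (β : Ω), NonMin β → ∀ a b m : ℕ → ℕ,
    (∀ i, a i ≤ b i ∧ b i ≤ a (i + 1)) →
    ∑ i ∈ Finset.range (Kn n), |f (st N (D.lad β (a i)), m i) - f (st N (D.lad β (b i)), m i)|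
      ≤ C * (th n : ℝ)

/-- for each element the scale seminorms tend to zero -/
def Stmt_O3 : Prop := ∀ (Ω : Type) [LinearOrder Ω] (D : LD Ω) (Y : Type) [NormedAddCommGroup Y]
  [NormedSpace ℝ Y] (val : Y →ₗ[ℝ] (Pt Ω → ℝ)), D.IsSp val →
  ∀ y, ∀ ε > 0, ∃ n₀, ∀ n ≥ n₀, D.Sc n ε (val y)

/-- separable sets of elements vanish on the blocks `≥ βs` for some `βs` -/
def Stmt_O4 : Prop := ∀ (Ω : Type) [LinearOrder Ω] [WellFoundedLT Ω] (D : LD Ω),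
  (∀ β : Ω, (Set.Iio β).Countable) → ¬ (Set.univ : Set Ω).Countable →
  ∀ (Y : Type) [NormedAddCommGroup Y] [NormedSpace ℝ Y] (val : Y →ₗ[ℝ] (Pt Ω → ℝ)), D.IsSp val →
  ∀ S : Set Y, TopologicalSpace.IsSeparable S →
    ∃ βs : Ω, ∀ y ∈ S, ∀ v : Vx Ω, βs ≤ v.2.1 → ∀ m, val y (v, m) = 0

/-- structure of an element outside a finite set of points -/
def Stmt_O5 : Prop := ∀ (Ω : Type) [LinearOrder Ω] (D : LD Ω) (Y : Type) [NormedAddCommGroup Y]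
  [NormedSpace ℝ Y] (val : Y →ₗ[ℝ] (Pt Ω → ℝ)), D.IsSp val →
  ∀ y, ∀ ε > 0, ∃ (F : Set (Pt Ω)) (Γ : Set (ℕ × Ω)) (M : ℕ), F.Finite ∧ Γ.Finite ∧
    (∀ g ∈ Γ, NonMin g.2) ∧ (∀ m ≥ M, ∀ v, |val y (v, m)| ≤ ε) ∧
    ∀ p : Pt Ω, p ∉ F → |val y p| ≤ ε ∨
      ∃ g ∈ Γ, p.1.1 = g.1 ∧ (∃ a, ns p.1 = D.lad g.2 a) ∧
        |val y p - tent p.1.1 p.1.2.2 * val y ((g.1, g.2, 0), p.2)| ≤ ε

/-! ## Block W : bounded pointwise null sequences are weakly null -/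

/-- abstract gliding hump. `Q n C y`: the `n`-th seminorm of `y` is at most `C`; `S C y`: the sup
seminorm of `y` is at most `C`. -/
def Stmt_W1 : Prop := ∀ (Y : Type) [NormedAddCommGroup Y] [NormedSpace ℝ Y]
  (Q : ℕ → ℝ → Y → Prop) (S : ℝ → Y → Prop),
  (∀ n C C' y, C ≤ C' → Q n C y → Q n C' y) → (∀ C C' y, C ≤ C' → S C y → S C' y) →
  (∀ n C C' y y', Q n C y → Q n C' y' → Q n (C + C') (y + y')) →
  (∀ C C' y y', S C y → S C' y' → S (C + C') (y + y')) →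
  (∀ n C (c : ℝ) y, Q n C y → Q n (|c| * C) (c • y)) →
  (∀ C (c : ℝ) y, S C y → S (|c| * C) (c • y)) →
  (∀ y, S ‖y‖ y ∧ ∀ n, Q n ‖y‖ y) →
  (∀ y C, 0 ≤ C → S C y → (∀ n, Q n C y) → ‖y‖ ≤ C) →
  (∀ n, ∃ c : ℝ, 0 ≤ c ∧ ∀ C y, 0 ≤ C → S C y → Q n (c * C) y) →
  (∀ y, ∀ ε > 0, ∃ n₀, ∀ n ≥ n₀, Q n ε y) →
  ∀ g : Y →L[ℝ] ℝ, ∀ δ > 0, ∃ E : ℝ, 0 ≤ E ∧ ∀ y C, 0 ≤ C → S C y → |g y| ≤ E * C + δ * ‖y‖

/-- a subsequence with uniformly bounded sums of absolute values at all points -/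
def Stmt_W2 : Prop := ∀ (Ω : Type) [LinearOrder Ω] (D : LD Ω) (Y : Type) [NormedAddCommGroup Y]
  [NormedSpace ℝ Y] (val : Y →ₗ[ℝ] (Pt Ω → ℝ)), D.IsSp val →
  ∀ w : ℕ → Y, (∀ k, ‖w k‖ ≤ 1) → (∀ p, Tendsto (fun k => val (w k) p) atTop (𝓝 0)) →
  ∃ k : ℕ → ℕ, StrictMono k ∧ ∀ p, ∀ L, ∑ i ∈ Finset.range L, |val (w (k i)) p| ≤ 10

def Stmt_W : Prop := ∀ (Ω : Type) [LinearOrder Ω] (D : LD Ω) (Y : Type) [NormedAddCommGroup Y]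
  [NormedSpace ℝ Y] (val : Y →ₗ[ℝ] (Pt Ω → ℝ)), D.IsSp val →
  ∀ w : ℕ → Y, (∃ B, ∀ k, ‖w k‖ ≤ B) → (∀ p, Tendsto (fun k => val (w k) p) atTop (𝓝 0)) →
  ∀ g : Y →L[ℝ] ℝ, Tendsto (fun k => g (w k)) atTop (𝓝 0)

/-! ## Block CV : limits of `T (ψ ⊗ 1_{[0,k)})` -/

/-- alternating sums of the steps are small at the scales where they should be -/
def Stmt_ALT : Prop := ∀ (Ω : Type) [LinearOrder Ω] (D : LD Ω) (Y : Type) [NormedAddCommGroup Y]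
  [NormedSpace ℝ Y] (val : Y →ₗ[ℝ] (Pt Ω → ℝ)), D.IsSp val →
  ∀ (C : ℝ) (ψ : Vx Ω → ℝ), 0 ≤ C → D.Nice C ψ → ∀ e : ℕ → Y, Steps val ψ e →
  ∀ n : ℕ, (label n = none ∨ ∃ c, label n = some c ∧ ∀ v ∈ D.A c, ψ v = 0) →
  ∀ k : ℕ → ℕ, StrictMono k → ‖altsum e k (Kn n)‖ ≤ 2 * C * (Rp n : ℝ)

def Stmt_CV : Prop := ∀ (Ω : Type) [LinearOrder Ω] (D : LD Ω) (Y : Type) [NormedAddCommGroup Y]
  [NormedSpace ℝ Y] (val : Y →ₗ[ℝ] (Pt Ω → ℝ)), D.IsSp val →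
  ∀ ψ ∈ D.SS, ∀ e : ℕ → Y, Steps val ψ e → ∀ T : Y →L[ℝ] Y,
    ∃ z : Pt Ω → ℝ, PtLim val (fun k => T (e k)) z

/-- pointwise limits of bounded sequences -/
def Stmt_BdLim : Prop := ∀ (Ω : Type) [LinearOrder Ω] (D : LD Ω) (Y : Type) [NormedAddCommGroup Y]
  [NormedSpace ℝ Y] (val : Y →ₗ[ℝ] (Pt Ω → ℝ)), D.IsSp val →
  ∀ (y : ℕ → Y) (z : Pt Ω → ℝ), PtLim val y z → ∀ C, (∀ k, ‖y k‖ ≤ C) → D.Bd C z

/-- fibres of functions with `Bd` converge -/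
def Stmt_FL : Prop := ∀ (Ω : Type) [LinearOrder Ω] (D : LD Ω) (C : ℝ) (z : Pt Ω → ℝ), D.Bd C z →
  ∀ v : Vx Ω, ∃ L, Tendsto (fun m => z (v, m)) atTop (𝓝 L)

/-- uniform ladder continuity of the limits -/
def Stmt_UL : Prop := ∀ (Ω : Type) [LinearOrder Ω] (D : LD Ω) (Y : Type) [NormedAddCommGroup Y]
  [NormedSpace ℝ Y] (val : Y →ₗ[ℝ] (Pt Ω → ℝ)), D.IsSp val →
  ∀ ψ ∈ D.SS, ∀ e : ℕ → Y, Steps val ψ e → ∀ T : Y →L[ℝ] Y, ∀ z : Pt Ω → ℝ,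
    PtLim val (fun k => T (e k)) z → D.UL z

/-! ## Block INT : interlacing -/

def Stmt_INT : Prop := ∀ (Ω : Type) [LinearOrder Ω] (D : LD Ω) (Y : Type) [NormedAddCommGroup Y]
  [NormedSpace ℝ Y] (val : Y →ₗ[ℝ] (Pt Ω → ℝ)), D.IsSp val →
  ∀ (y : ℕ → Y) (v : Vx Ω) (z : ℕ → ℝ) (L : ℝ),
    (∀ m, Tendsto (fun k => val (y k) (v, m)) atTop (𝓝 (z m))) → Tendsto z atTop (𝓝 L) →
    ∀ n c : ℕ, label n = some c → v ∈ D.A c → D.depv v ≤ n →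
      ∃ k : ℕ → ℕ, StrictMono k ∧ |L| / 2 * (Rn n : ℝ) ≤ ‖altsum y k (Kn n)‖

/-! ## Block LOC : the symbol of an operator -/

def Stmt_LOC : Prop := ∀ (Ω : Type) [LinearOrder Ω] (D : LD Ω) (Y : Type) [NormedAddCommGroup Y]
  [NormedSpace ℝ Y] (val : Y →ₗ[ℝ] (Pt Ω → ℝ)), D.IsSp val →
  ∀ T : Y →L[ℝ] Y, ∃ Λ : Vx Ω → ℝ, D.IsSym val T Λ

/-- hat functions -/
def Stmt_Hat : Prop := ∀ (Ω : Type) [LinearOrder Ω] (D : LD Ω) (N : ℕ) (β : Ω) (l : ℕ),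
  ∃ ψ ∈ D.SS, D.Nice 4 ψ ∧ ψ (N, β, l) = 1 ∧ ψ (N, β, l + 1) = 1 - 1 / ((N : ℝ) + 1)

def Stmt_LK : Prop := ∀ (Ω : Type) [LinearOrder Ω] (D : LD Ω) (Y : Type) [NormedAddCommGroup Y]
  [NormedSpace ℝ Y] (val : Y →ₗ[ℝ] (Pt Ω → ℝ)), D.IsSp val →
  ∀ (T : Y →L[ℝ] Y) (Λ : Vx Ω → ℝ), D.IsSym val T Λ →
    (∀ (N : ℕ) (β : Ω) (l : ℕ), ((N : ℝ) + 1) * |Λ (N, β, l) - Λ (N, β, l + 1)| ≤ 8 * ‖T‖) ∧
    ∀ (N : ℕ) (β : Ω), NonMin β →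
      Tendsto (fun a => Λ (st N (D.lad β a))) atTop (𝓝 (Λ (N, β, 0)))

/-! ## Block AL : approximation -/

/-- alternating sums of soft thresholds -/
def Stmt_AS : Prop := ∀ (J : ℕ → ℕ), StrictMono J → ∀ (i₀ i₁ : ℕ) (x y : ℝ),
  |∑ i ∈ Finset.Ico i₀ (i₁ + 1), (-1 : ℝ) ^ i * soft (J i) x
      - ∑ i ∈ Finset.Ico i₀ (i₁ + 1), (-1 : ℝ) ^ i * soft (J i) y|
    ≤ |soft (J i₁) x - soft (J i₁) y|

def Stmt_Exh : Prop := ∀ (Ω : Type) [LinearOrder Ω] (D : LD Ω) (z : Pt Ω → ℝ) (βs : Ω),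
  (Set.Iio βs).Countable → (∀ v, Tendsto (fun m => z (v, m)) atTop (𝓝 0)) →
  ∃ S : ℕ → Set (ℕ × Ω × ℕ), Exh D z βs S

def Stmt_AL : Prop := ∀ (Ω : Type) [LinearOrder Ω] (D : LD Ω) (Y : Type) [NormedAddCommGroup Y]
  [NormedSpace ℝ Y] (val : Y →ₗ[ℝ] (Pt Ω → ℝ)), D.IsSp val →
  ∀ (z : Pt Ω → ℝ) (C : ℝ) (βs : Ω), D.Bd C z → (Set.Iio βs).Countable →
    (∀ v, Tendsto (fun m => z (v, m)) atTop (𝓝 0)) →
    (∀ v : Vx Ω, βs ≤ v.2.1 → ∀ m, z (v, m) = 0) →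
    ∃ (h : ℕ → Y) (C' : ℝ), PtLim val h z ∧ (∀ k, ‖h k‖ ≤ C') ∧
      ∀ n c : ℕ, label n = some c → ∀ k : ℕ → ℕ, StrictMono k →
        ‖altsum h k (Kn n)‖ ≤ C' * (Rp n : ℝ)

/-! ## Block MUL : the symbol of a projection takes the values 0 and 1 -/

def Stmt_MUL : Prop := ∀ (Ω : Type) [LinearOrder Ω] (D : LD Ω) (Y : Type) [NormedAddCommGroup Y]
  [NormedSpace ℝ Y] (val : Y →ₗ[ℝ] (Pt Ω → ℝ)), D.IsSp val →
  ∀ (P : Y →L[ℝ] Y) (Λ : Vx Ω → ℝ) (βs : Ω), D.IsSym val P Λ → (∀ y, P (P y) = P y) →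
    (Set.Iio βs).Countable → (∀ y, ∀ v : Vx Ω, βs ≤ v.2.1 → ∀ m, val (P y) (v, m) = 0) →
    ∀ v : Vx Ω, ¬ Lim v → Λ v = 0 ∨ Λ v = 1

/-! ## Block FIN -/

def Stmt_NoSCP : Prop := ∀ (Ω : Type) [LinearOrder Ω] [WellFoundedLT Ω] (D : LD Ω),
  (∀ β : Ω, (Set.Iio β).Countable) → ¬ (Set.univ : Set Ω).Countable →
  ∀ (Y : Type) [NormedAddCommGroup Y] [NormedSpace ℝ Y] (val : Y →ₗ[ℝ] (Pt Ω → ℝ)), D.IsSp val →
  ∃ S : Submodule ℝ Y, TopologicalSpace.IsSeparable (S : Set Y) ∧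
    ∀ T : Submodule ℝ Y, S ≤ T → TopologicalSpace.IsSeparable (T : Set Y) → ¬ T.ClosedComplemented

/-! ## Block STAR -/

def Stmt_STAR : Prop := ∀ (Ω : Type) [LinearOrder Ω] [WellFoundedLT Ω] (D : LD Ω),
  (∀ β : Ω, (Set.Iio β).Countable) → ¬ (Set.univ : Set Ω).Countable →
  ∀ (Y : Type) [NormedAddCommGroup Y] [NormedSpace ℝ Y] [CompleteSpace Y]
    (val : Y →ₗ[ℝ] (Pt Ω → ℝ)), D.IsSp val →
  ∀ S : Set Y, TopologicalSpace.IsSeparable S →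
    ∃ R : Y →L[ℝ] Y, TopologicalSpace.IsSeparable (Set.range R) ∧ ∀ y ∈ S, R y = y

/-! ## Block JRZ : from `Y` to the counterexample -/

def Final : Prop :=
  ¬ (∀ (X : Type) [NormedAddCommGroup X] [NormedSpace ℝ X] [CompleteSpace X],
      (∀ S : Submodule ℝ X, TopologicalSpace.IsSeparable (S : Set X) →
        ∃ T : Submodule ℝ X, S ≤ T ∧ TopologicalSpace.IsSeparable (T : Set X) ∧
          T.ClosedComplemented) →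
      ∀ Y : Submodule ℝ X, Y.ClosedComplemented →
        ∀ S : Submodule ℝ Y, TopologicalSpace.IsSeparable (S : Set Y) →
          ∃ T : Submodule ℝ Y, S ≤ T ∧ TopologicalSpace.IsSeparable (T : Set Y) ∧
            T.ClosedComplemented)

def Stmt_JRZ : Prop := ∀ (Y : Type) [NormedAddCommGroup Y] [NormedSpace ℝ Y] [CompleteSpace Y],
  (∀ S : Set Y, TopologicalSpace.IsSeparable S →
    ∃ R : Y →L[ℝ] Y, TopologicalSpace.IsSeparable (Set.range R) ∧ ∀ y ∈ S, R y = y) →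
  (∃ S : Submodule ℝ Y, TopologicalSpace.IsSeparable (S : Set Y) ∧
    ∀ T : Submodule ℝ Y, S ≤ T → TopologicalSpace.IsSeparable (T : Set Y) →
      ¬ T.ClosedComplemented) → Final

/-! ## Assembly -/

theorem assembly (hLD : Stmt_LD) (hSp : Stmt_Sp) (hStar : Stmt_STAR) (hNo : Stmt_NoSCP)
    (hJRZ : Stmt_JRZ) : Final := by
  obtain ⟨Ω, _, _, hc, hu, ⟨D⟩⟩ := hLD
  obtain ⟨Y, _, _, _, val, hval⟩ := hSp Ω D
  exact hJRZ Y (fun S hS => hStar Ω D hc hu Y val hval S hS) (hNo Ω D hc hu Y val hval)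

end Pool.Agent.MP156639
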