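import Mathlib

/-!
# MP_156639_an : the separable complementation property is not inherited by complemented subspaces

Common definitions (see BLUEPRINT.md).
-/

set_option autoImplicit false

open scoped BigOperators
open Filter Topology

namespace Pool.Agent.MP156639

/-! ## Scales -/

/-- number of differences counted at scale `n` -/
def Kn (n : ℕ) : ℕ := ∏ i ∈ Finset.range (n + 1), (i + 1).factorial

/-- the weight at scale `n` -/
def th (n : ℕ) : ℕ := ∏ i ∈ Finset.range n, (i + 1).factorial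

/-- `Rn n = Kn n / th n` -/
def Rn (n : ℕ) : ℕ := (n + 1).factorial

/-- `Rp n = Rn (n-1)` (and `1` for `n = 0`) -/
def Rp (n : ℕ) : ℕ := n.factorial

/-- label of the scale `n`: `none` for ladder scales, `some c` for fibre scales of class `c`.
Every value is taken infinitely often. -/
def label (n : ℕ) : Option ℕ :=
  match (Nat.unpair n).1 with
  | 0 => none
  | c + 1 => some c

/-! ## Vertices -/

/-- vertices `(N, β, l)`: component `N` (Lipschitz weight `N+1`), block `β`, position `l` -/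
abbrev Vx (Ω : Type) := ℕ × Ω × ℕ

/-- points `(v, m)` -/
abbrev Pt (Ω : Type) := Vx Ω × ℕ

/-- index of the nearest station of the position `l` in component `N`
(stations are the multiples of `2 (N+1)`) -/
def near (N l : ℕ) : ℕ := (l + (N + 1)) / (2 * (N + 1))

/-- tent function of the nearest station -/
noncomputable def tent (N l : ℕ) : ℝ :=
  1 - |(l : ℝ) - 2 * ((N : ℝ) + 1) * (near N l : ℝ)| / ((N : ℝ) + 1)

/-- the vertex of the station `s = (β, j)` in component `N` -/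
def st {Ω : Type} (N : ℕ) (s : Ω × ℕ) : Vx Ω := (N, s.1, 2 * (N + 1) * s.2)

/-- the station nearest to the vertex `v` (without the component) -/
def ns {Ω : Type} (v : Vx Ω) : Ω × ℕ := (v.2.1, near v.1 v.2.2)

/-- the indicator of `{0, …, k-1}` -/
noncomputable def ind (k : ℕ) (m : ℕ) : ℝ := if m < k then 1 else 0

/-- alternating sum along a subsequence -/
noncomputable def altsum {Y : Type} [AddCommGroup Y] [Module ℝ Y] (y : ℕ → Y) (k : ℕ → ℕ)
    (K : ℕ) : Y := ∑ i ∈ Finset.range K, (-1 : ℝ) ^ i • y (k i)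

/-- the variation of `x` along `ℕ` is at most `V` -/
def TVle (V : ℝ) (x : ℕ → ℝ) : Prop :=
  ∀ ms : ℕ → ℕ, Monotone ms → ∀ K, ∑ i ∈ Finset.range K, |x (ms (i + 1)) - x (ms i)| ≤ V

/-- tensor product of a scalar function on the vertices and a function on `ℕ` -/
def tens {Ω : Type} (ψ : Vx Ω → ℝ) (x : ℕ → ℝ) (p : Pt Ω) : ℝ := ψ p.1 * x p.2

section
variable {Ω : Type} [LinearOrder Ω]

/-- the block `b` is not the first one -/
def NonMin (b : Ω) : Prop := ∃ b', b' < b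

/-- limit vertices -/
def Lim (v : Vx Ω) : Prop := v.2.2 = 0 ∧ NonMin v.2.1

variable (Ω) in
/-- The combinatorial data: ladders `lad β` (for every non-minimal block `β`) and a countable
family `A` of classes of vertices. -/
structure LD where
  /-- the ladder of the limit vertex of block `β`: a sequence of stations `(block, index ≥ 1)` -/
  lad : Ω → ℕ → Ω × ℕ
  /-- depth of a station -/
  dep : Ω × ℕ → ℕ
  /-- classes of vertices -/
  A : ℕ → Set (Vx Ω)
  lad_lt : ∀ β, NonMin β → ∀ a, (lad β a).1 < β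
  lad_mono : ∀ β, NonMin β → Monotone (fun a => (lad β a).1)
  lad_cof : ∀ β, NonMin β → ∀ β₀ < β, ∃ a₀, ∀ a ≥ a₀, β₀ ≤ (lad β a).1
  lad_pos : ∀ β, NonMin β → ∀ a, 1 ≤ (lad β a).2
  lad_strict : ∀ β, NonMin β → StrictMono (fun a => (lad β a).2)
  lad_dep : ∀ β, NonMin β → ∀ a, dep (lad β a) = a
  /-- tree property: a common node has the same index and the same predecessors -/
  lad_tree : ∀ β β', NonMin β → NonMin β' → ∀ a a', lad β a = lad β' a' →
    a = a' ∧ ∀ c ≤ a, lad β c = lad β' c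
  lad_ad : ∀ β β', NonMin β → NonMin β' → β ≠ β' → ∃ a₀, ∀ a ≥ a₀, lad β a ≠ lad β' a
  sep1 : ∀ v w : Vx Ω, v ≠ w → ∃ c, v ∈ A c ∧ w ∉ A c
  sep2 : ∀ (v : Vx Ω) (N : ℕ) (β : Ω), NonMin β → v ≠ (N, β, 0) →
    ∃ c k, v ∈ A c ∧ ((N, β, 0) : Vx Ω) ∉ A c ∧
      ∀ w : Vx Ω, w.1 = N → ∀ a ≥ k, ns w = lad β a → w ∉ A c

namespace LD
variable (D : LD Ω)

/-- depth of a vertex = depth of its nearest station -/
def depv (v : Vx Ω) : ℕ := D.dep (ns v)

/-- `s` is the limit station of the block `β` or a node of its ladder -/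
def InLad (β : Ω) (s : Ω × ℕ) : Prop := s = (β, 0) ∨ ∃ a, s = D.lad β a

open Classical in
/-- the function of the limit vertex `(N, β, 0)`: tents around it and around all nodes of
its ladder -/
noncomputable def G (N : ℕ) (β : Ω) (v : Vx Ω) : ℝ :=
  if v.1 = N ∧ D.InLad β (ns v) then tent v.1 v.2.2 else 0

/-- `Bd D C f`: all test functionals of `f` are bounded by `C`. -/
structure Bd (C : ℝ) (f : Pt Ω → ℝ) : Prop where
  pt : ∀ p, |f p| ≤ C
  link : ∀ (N : ℕ) (β : Ω) (l m : ℕ),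
    ((N : ℝ) + 1) * |f ((N, β, l), m) - f ((N, β, l + 1), m)| ≤ C
  fib : ∀ (n c : ℕ), label n = some c → ∀ v ∈ D.A c, D.depv v ≤ n → ∀ ms : ℕ → ℕ, Monotone ms →
    ∑ i ∈ Finset.range (Kn n), |f (v, ms (i + 1)) - f (v, ms i)| ≤ C * (th n : ℝ)
  path : ∀ n : ℕ, label n = none → ∀ (N : ℕ) (β : Ω), NonMin β → ∀ a b m : ℕ → ℕ,
    (∀ i, a i ≤ b i ∧ b i ≤ a (i + 1)) →
    ∑ i ∈ Finset.range (Kn n), |f (st N (D.lad β (a i)), m i) - f (st N (D.lad β (b i)), m i)|
      ≤ C * (th n : ℝ)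

open Classical in
/-- the scalar functions on vertices: span of the Dirac functions of non-limit vertices and of
the functions `G N β` -/
noncomputable def SS : Submodule ℝ (Vx Ω → ℝ) :=
  Submodule.span ℝ
    ({f | ∃ v, ¬ Lim v ∧ f = fun w => if w = v then 1 else 0} ∪
     {f | ∃ N β, NonMin β ∧ f = D.G N β})

open Classical in
/-- the span of the generators of the space `Y` -/
noncomputable def GS : Submodule ℝ (Pt Ω → ℝ) :=
  Submodule.span ℝ
    ({f | ∃ (v : Vx Ω) (m : ℕ), ¬ Lim v ∧ f = fun p => if p = (v, m) then 1 else 0} ∪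
     {f | ∃ (N : ℕ) (β : Ω) (m : ℕ), NonMin β ∧ f = fun p => if p.2 = m then D.G N β p.1 else 0})

/-- the space: a Banach space `Y` with a linear evaluation map such that the norm is the best
constant in `Bd`, and the elements with value in `GS` are dense (and all of `GS` is attained). -/
structure IsSp {Y : Type} [NormedAddCommGroup Y] [NormedSpace ℝ Y]
    (val : Y →ₗ[ℝ] (Pt Ω → ℝ)) : Prop where
  bd : ∀ y, D.Bd ‖y‖ (val y)
  le : ∀ y C, 0 ≤ C → D.Bd C (val y) → ‖y‖ ≤ C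
  gen : ∀ f ∈ D.GS, ∃ y, val y = f
  dense : ∀ y, ∀ ε > 0, ∃ y', val y' ∈ D.GS ∧ ‖y - y'‖ < ε

/-- scalar functions with good constants -/
structure Nice (C : ℝ) (ψ : Vx Ω → ℝ) : Prop where
  pt : ∀ v, |ψ v| ≤ C
  link : ∀ (N : ℕ) (β : Ω) (l : ℕ), ((N : ℝ) + 1) * |ψ (N, β, l) - ψ (N, β, l + 1)| ≤ C
  path : ∀ (N : ℕ) (β : Ω), NonMin β → TVle C (fun a => ψ (st N (D.lad β a)))

/-- uniform continuity along the ladders -/
def UL (z : Pt Ω → ℝ) : Prop := ∀ (N : ℕ) (β : Ω), NonMin β → ∀ ε > 0, ∃ a₀, ∀ a ≥ a₀, ∀ m,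
  |z (st N (D.lad β a), m) - z ((N, β, 0), m)| ≤ ε

end LD

variable {Y : Type} [NormedAddCommGroup Y] [NormedSpace ℝ Y]

/-- `y k` converges pointwise to `z` -/
def PtLim (val : Y →ₗ[ℝ] (Pt Ω → ℝ)) (y : ℕ → Y) (z : Pt Ω → ℝ) : Prop :=
  ∀ p, Tendsto (fun k => val (y k) p) atTop (𝓝 (z p))

/-- `e k = ψ ⊗ 1_{[0,k)}` -/
def Steps (val : Y →ₗ[ℝ] (Pt Ω → ℝ)) (ψ : Vx Ω → ℝ) (e : ℕ → Y) : Prop :=
  ∀ k, val (e k) = tens ψ (ind k)

/-- `Λ` is the symbol of the operator `T` -/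
def LD.IsSym (D : LD Ω) (val : Y →ₗ[ℝ] (Pt Ω → ℝ)) (T : Y →L[ℝ] Y) (Λ : Vx Ω → ℝ) : Prop :=
  ∀ ψ ∈ D.SS, ∀ e : ℕ → Y, Steps val ψ e → ∀ z : Pt Ω → ℝ, PtLim val (fun k => T (e k)) z →
    ∀ v, Tendsto (fun m => z (v, m)) atTop (𝓝 (ψ v * Λ v))

end

/-- soft threshold at `1/(J+1)` -/
noncomputable def soft (J : ℕ) (x : ℝ) : ℝ :=
  x - max (-(1 / ((J : ℝ) + 1))) (min (1 / ((J : ℝ) + 1)) x)

/-- an exhaustion of the stations in the blocks `< βs` by finite sets, adapted to a function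
`z` on the points. Members of `S J` are triples `(N, β, j)`: the station `(β, j)` of the
component `N`. -/
structure Exh {Ω : Type} [LinearOrder Ω] (D : LD Ω) (z : Pt Ω → ℝ) (βs : Ω)
    (S : ℕ → Set (ℕ × Ω × ℕ)) : Prop where
  fin : ∀ J, (S J).Finite
  mono : Monotone S
  exh : ∀ (N : ℕ) (β : Ω) (j : ℕ), β < βs → ∃ J, (N, β, j) ∈ S J
  sub : ∀ (J N : ℕ) (β : Ω) (j : ℕ), (N, β, j) ∈ S J → β < βs
  pred : ∀ (J N : ℕ) (β : Ω), NonMin β → ∀ a c, c ≤ a → (N, D.lad β a) ∈ S J →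
    (N, D.lad β c) ∈ S J
  shared : ∀ (J N : ℕ) (β β' : Ω), NonMin β → NonMin β' → β ≠ β' → (N, β, 0) ∈ S J →
    (N, β', 0) ∈ S J → ∀ a, D.lad β a = D.lad β' a → (N, D.lad β a) ∈ S J
  thr : ∀ (J N : ℕ) (β : Ω), NonMin β → (N, β, 0) ∈ S J → ∀ a, (N, D.lad β a) ∉ S J →
    ∀ n ≥ a, TVle (th n : ℝ) (fun m => soft J (z ((N, β, 0), m)))

end Pool.Agent.MP156639
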